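import Pool.Agent.Y782.WU.Stm

/-!
WU-KS: choice of the killing rates by mass transport.
-/

set_option autoImplicit false

open MeasureTheory ProbabilityTheory Filter Topology
open scoped ENNReal NNReal BigOperators unitInterval

namespace Pool.Agent.Y764.WU

open Pool.Agent.Y782.WU

section nat
variable {V : Type}

theorem dgr_comap (τ : Equiv.Perm V) (G : SimpleGraph V) (v : V) :
    dgr (G.comap τ) v = dgr G (τ v) := by
  unfold dgr
  have : G.neighborSet (τ v) = τ '' ((G.comap τ).neighborSet v) := by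
    ext w
    simp only [SimpleGraph.mem_neighborSet, Set.mem_image, SimpleGraph.comap_adj]
    constructor
    · intro h
      exact ⟨τ.symm w, by simpa using h, by simp⟩
    · rintro ⟨x, hx, rfl⟩
      exact hx
  rw [this, Set.ncard_image_of_injective _ τ.injective]

theorem stp_comap (τ : Equiv.Perm V) (G : SimpleGraph V) (v w : V) :
    stp (G.comap τ) v w = stp G (τ v) (τ w) := by
  unfold stp
  rw [dgr_comap]
  by_cases h : G.Adj (τ v) (τ w)
  · rw [if_pos h, if_pos (show (G.comap τ).Adj v w from h)]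
  · rw [if_neg h, if_neg (show ¬ (G.comap τ).Adj v w from h)]

theorem pn_comap (τ : Equiv.Perm V) (G : SimpleGraph V) (n : ℕ) (v w : V) :
    pn (G.comap τ) n v w = pn G n (τ v) (τ w) := by
  induction n generalizing v with
  | zero =>
    unfold pn
    by_cases h : v = w
    · rw [if_pos h, if_pos (congrArg τ h)]
    · rw [if_neg h, if_neg (fun h' => h (τ.injective h'))]
  | succ n ih =>
    unfold pn
    rw [← Equiv.tsum_eq τ (fun z => stp G (τ v) z * pn G n z (τ w))]
    apply tsum_congr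
    intro z
    rw [stp_comap, ih]

theorem ab_comap (τ : Equiv.Perm V) (G : SimpleGraph V) (k : ℕ) (v w : V) :
    ab (G.comap τ) k v w = ab G k (τ v) (τ w) := by
  unfold ab
  apply tsum_congr
  intro n
  rw [pn_comap]

open Classical in
theorem qq_comap (τ : Equiv.Perm V) (G : SimpleGraph V) (k : ℕ) (v : V) :
    qq (G.comap τ) k v = qq G k (τ v) := by
  unfold qq
  rw [← Equiv.tsum_eq τ (fun w => if G.Adj (τ v) w then l1 (ab G k (τ v)) (ab G k w) else 0)]
  apply tsum_congr
  intro w
  have e : l1 (ab (G.comap τ) k v) (ab (G.comap τ) k w) = l1 (ab G k (τ v)) (ab G k (τ w)) := by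
    unfold l1
    rw [← Equiv.tsum_eq τ (fun c => ((ab G k (τ v) c - ab G k (τ w) c) +
      (ab G k (τ w) c - ab G k (τ v) c)))]
    apply tsum_congr
    intro c
    rw [ab_comap, ab_comap]
  by_cases h : G.Adj (τ v) (τ w)
  · rw [if_pos h, if_pos (show (G.comap τ).Adj v w from h), e]
  · rw [if_neg h, if_neg (show ¬ (G.comap τ).Adj v w from h)]

end nat

theorem qq_lt_top {V : Type} (h1 : S_GR) (G : SimpleGraph V) (hG : Okg G) (k : ℕ) (v : V) :
    qq G k v < ⊤ := by
  obtain ⟨hab, -, -⟩ := h1 V G hG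
  have hfin := hG.2.2.2 v
  have hl : ∀ w, l1 (ab G k v) (ab G k w) < ⊤ := by
    intro w
    have : l1 (ab G k v) (ab G k w) ≤ ∑' c, (ab G k v c + ab G k w c) := by
      unfold l1
      exact ENNReal.tsum_le_tsum fun c => add_le_add tsub_le_self tsub_le_self
    refine this.trans_lt ?_
    rw [ENNReal.tsum_add, hab, hab]
    exact ENNReal.add_lt_top.2 ⟨ENNReal.one_lt_top, ENNReal.one_lt_top⟩
  unfold qq
  rw [tsum_eq_sum (s := hfin.toFinset)]
  · apply ENNReal.sum_lt_top.2
    intro w _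
    split_ifs
    · exact hl w
    · exact ENNReal.zero_lt_top
  · intro w hw
    rw [Set.Finite.mem_toFinset, SimpleGraph.mem_neighborSet] at hw
    rw [if_neg hw]

/-- **WU-KS** -/
theorem ks (h1 : S_GR) (h2 : S_MS1) : S_KS := by
  intro V Ω _ _ P _ G ρ hG hρ hok hrec hun
  have hX : ∀ k, Measurable (fun ω => qq (G ω) k (ρ ω)) := by
    intro k
    classical
    have : (fun ω => qq (G ω) k (ρ ω)) =
        fun ω => ∑' x, (if ρ ω = x then qq (G ω) k x else 0) := by
      ext ω
      rw [tsum_eq_single (ρ ω)]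
      · rw [if_pos rfl]
      · intro x hx
        rw [if_neg (Ne.symm hx)]
    rw [this]
    refine Measurable.tsum fun x => ?_
    exact Measurable.ite (hρ x) ((h2 V k x x).2.comp hG) measurable_const
  have hlim : ∀ᵐ ω ∂P, Tendsto (fun k => qq (G ω) k (ρ ω)) atTop (𝓝 0) := by
    filter_upwards [hok, hrec] with ω ho hr
    exact (h1 V (G ω) ho).2.2 hr (ρ ω)
  -- choice of the rates
  have hch : ∀ n : ℕ, ∃ k : ℕ, P {ω | (2 : ℝ≥0∞)⁻¹ ^ n < qq (G ω) k (ρ ω)} ≤ (2 : ℝ≥0∞)⁻¹ ^ n := by
    intro n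
    have hpos : (0 : ℝ≥0∞) < (2 : ℝ≥0∞)⁻¹ ^ n :=
      ENNReal.pow_pos (ENNReal.inv_pos.2 (by simp)) n
    obtain ⟨B, hB⟩ : ∃ B : ℕ → Set Ω, ∀ m, B m = ⋃ k ≥ m, {ω | (2 : ℝ≥0∞)⁻¹ ^ n <
      qq (G ω) k (ρ ω)} := ⟨_, fun _ => rfl⟩
    have hBm : ∀ m, MeasurableSet (B m) := by
      intro m
      rw [hB]
      exact MeasurableSet.iUnion fun k => MeasurableSet.iUnion fun _ =>
        measurableSet_lt measurable_const (hX k)
    have hanti : Antitone B := by
      intro m m' hm ω hω
      rw [hB] at hω ⊢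
      simp only [Set.mem_iUnion] at hω ⊢
      obtain ⟨k, hk, h⟩ := hω
      exact ⟨k, le_trans hm hk, h⟩
    have hzero : P (⋂ m, B m) = 0 := by
      have : ∀ᵐ ω ∂P, ω ∉ ⋂ m, B m := by
        filter_upwards [hlim] with ω hω hmem
        have h3 := (tendsto_order.1 hω).2 _ hpos
        obtain ⟨m, hm⟩ := Filter.eventually_atTop.1 h3
        have h4 := Set.mem_iInter.1 hmem m
        rw [hB] at h4
        simp only [Set.mem_iUnion] at h4
        obtain ⟨k, hk, h5⟩ := h4
        exact absurd (hm k hk) (not_lt.2 (le_of_lt h5))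
      exact measure_eq_zero_iff_ae_notMem.2 this
    have ht := tendsto_measure_iInter_atTop (μ := P) (fun m => (hBm m).nullMeasurableSet) hanti
      ⟨0, measure_ne_top _ _⟩
    rw [hzero] at ht
    have h6 := (tendsto_order.1 ht).2 _ hpos
    obtain ⟨m, hm⟩ := Filter.eventually_atTop.1 h6
    refine ⟨m, le_trans (measure_mono ?_) (le_of_lt (hm m le_rfl))⟩
    intro ω hω
    rw [hB]
    simp only [Set.mem_iUnion]
    exact ⟨m, le_rfl, hω⟩
  choose ks hks using hch
  refine ⟨ks, ?_⟩
  have hgeo : ∑' n : ℕ, (2 : ℝ≥0∞)⁻¹ ^ n ≠ ⊤ := by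
    rw [ENNReal.tsum_geometric]
    simp
  have hbc : ∀ᵐ ω ∂P, ∀ᶠ n in atTop, ω ∉ {ω | (2 : ℝ≥0∞)⁻¹ ^ n < qq (G ω) (ks n) (ρ ω)} := by
    apply ae_eventually_notMem
    exact ne_top_of_le_ne_top hgeo (ENNReal.tsum_le_tsum hks)
  have hgood : ∀ᵐ ω ∂P, ∑' n, qq (G ω) (ks n) (ρ ω) < ⊤ := by
    filter_upwards [hbc, hok] with ω h3 ho
    obtain ⟨N, hN⟩ := Filter.eventually_atTop.1 h3
    have h4 : ∀ n, qq (G ω) (ks n) (ρ ω) ≤
        (2 : ℝ≥0∞)⁻¹ ^ n + (if n < N then qq (G ω) (ks n) (ρ ω) else 0) := by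
      intro n
      by_cases h : n < N
      · rw [if_pos h]
        exact le_add_self
      · rw [if_neg h, add_zero]
        have := hN n (not_lt.1 h)
        simpa using this
    refine lt_of_le_of_lt (ENNReal.tsum_le_tsum h4) ?_
    rw [ENNReal.tsum_add]
    refine ENNReal.add_lt_top.2 ⟨hgeo.lt_top, ?_⟩
    rw [tsum_eq_sum (s := Finset.range N)]
    · apply ENNReal.sum_lt_top.2
      intro n _
      split_ifs
      · exact qq_lt_top h1 _ ho _ _
      · exact ENNReal.zero_lt_top
    · intro n hn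
      rw [Finset.mem_range] at hn
      rw [if_neg hn]
  -- mass transport
  classical
  obtain ⟨f, hf⟩ : ∃ f : SimpleGraph V → V → V → ℝ≥0∞, ∀ g x y, f g x y =
    if ∑' n, qq g (ks n) y = ⊤ then 1 else 0 := ⟨_, fun _ _ _ => rfl⟩
  have hmeas : ∀ y, Measurable (fun g : SimpleGraph V => ∑' n, qq g (ks n) y) := fun y =>
    Measurable.tsum fun n => (h2 V (ks n) y y).2
  have hfm : ∀ x y, Measurable (fun g => f g x y) := by
    intro x y
    simp only [hf]
    exact Measurable.ite ((hmeas y) (measurableSet_singleton ⊤)) measurable_const measurable_const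
  have hfi : ∀ (τ : Equiv.Perm V) g x y, f (g.comap τ) x y = f g (τ x) (τ y) := by
    intro τ g x y
    rw [hf, hf]
    simp only [qq_comap]
  have hmt := hun f hfm hfi
  have hr : ∫⁻ ω, ∑' x, f (G ω) x (ρ ω) ∂P = 0 := by
    rw [lintegral_eq_zero_iff']
    · filter_upwards [hgood] with ω h3
      simp only [Pi.zero_apply, hf, ENNReal.tsum_eq_zero]
      intro _
      rw [if_neg h3.ne]
    · apply Measurable.aemeasurable
      refine Measurable.tsum fun x => ?_
      simp only [hf]
      refine Measurable.ite ?_ measurable_const measurable_const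
      exact (Measurable.tsum fun n => hX (ks n)) (measurableSet_singleton ⊤)
  rw [hr] at hmt
  rw [lintegral_eq_zero_iff'] at hmt
  · filter_upwards [hmt] with ω h3 v
    simp only [Pi.zero_apply, ENNReal.tsum_eq_zero] at h3
    have h4 := h3 v
    rw [hf] at h4
    by_contra hcon
    rw [not_lt, top_le_iff] at hcon
    rw [if_pos hcon] at h4
    exact one_ne_zero h4
  · apply Measurable.aemeasurable
    refine Measurable.tsum fun x => ?_
    simp only [hf]
    refine Measurable.ite ?_ measurable_const measurable_const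
    exact ((hmeas x).comp hG) (measurableSet_singleton ⊤)

end Pool.Agent.Y764.WU
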